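import Pool.Agent.Lib.MP_71c7f5_ag.Regular

namespace Pool.Agent.MP_71c7f5_ag

open MvPolynomial RingTheory.Sequence
open scoped Pointwise

variable {K : Type*} [Field K]

attribute [local instance] MvPolynomial.gradedAlgebra

instance curveIdeal_isPrime : (curveIdeal K).IsPrime := isPrime_curveIdeal

instance : IsDomain (P4 K ⧸ curveIdeal K) := Ideal.Quotient.isDomain _

instance : IsNoetherianRing (P4 K ⧸ curveIdeal K) := inferInstance

/-- `x_0 - a, x_4 - b` is a weakly regular sequence on the coordinate ring -/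
lemma isWeaklyRegular_pair (a b : K) :
    IsWeaklyRegular (P4 K ⧸ curveIdeal K)
      [Ideal.Quotient.mk (curveIdeal K) (X 0 - C a), Ideal.Quotient.mk (curveIdeal K) (X 4 - C b)] := by
  rw [isWeaklyRegular_cons_iff, isWeaklyRegular_singleton_iff]
  constructor
  · intro x y hxy
    have h1 : Ideal.Quotient.mk (curveIdeal K) (X 0 - C a) ≠ 0 := by
      rw [Ne, Ideal.Quotient.eq_zero_iff_mem]
      exact X0_sub_notMem a
    exact mul_left_cancel₀ h1 hxy
  · rw [isSMulRegular_quotient_iff_mem_of_smul_mem]
    intro x hx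
    obtain ⟨f, rfl⟩ := Ideal.Quotient.mk_surjective x
    have key : ∀ g : P4 K, Ideal.Quotient.mk (curveIdeal K) g ∈
        (Ideal.Quotient.mk (curveIdeal K) (X 0 - C a) • ⊤ : Submodule (P4 K ⧸ curveIdeal K) _) ↔
        g ∈ curveIdeal K ⊔ Ideal.span {X 0 - C a} := by
      intro g
      rw [Submodule.mem_smul_pointwise_iff_exists]
      constructor
      · rintro ⟨y, -, hy⟩
        obtain ⟨k, rfl⟩ := Ideal.Quotient.mk_surjective y
        rw [smul_eq_mul, ← map_mul, eq_comm, Ideal.Quotient.eq] at hy
        have : g = (g - (X 0 - C a) * k) + (X 0 - C a) * k := by ring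
        rw [this]
        exact Ideal.add_mem _ (Ideal.mem_sup_left hy)
          (Ideal.mem_sup_right (Ideal.mul_mem_right _ _ (Ideal.mem_span_singleton_self _)))
      · intro hg
        obtain ⟨w, hw, r, hr, hwr⟩ := Submodule.mem_sup.1 hg
        obtain ⟨k, rfl⟩ := Ideal.mem_span_singleton.1 hr
        refine ⟨Ideal.Quotient.mk _ k, Submodule.mem_top, ?_⟩
        rw [smul_eq_mul, ← map_mul, eq_comm, Ideal.Quotient.eq, ← hwr, add_sub_cancel_right]
        exact hw
    rw [key]
    rw [smul_eq_mul, ← map_mul, key] at hx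
    exact mem_of_X4_sub_mul_mem a b hx

/-- `x_0, x_4` is a regular sequence on the coordinate ring -/
lemma isRegular_X0_X4 : IsRegular (P4 K ⧸ curveIdeal K) [(X 0 : P4 K), X 4] := by
  have h := isWeaklyRegular_pair (K := K) 0 0
  refine ⟨?_, ?_⟩
  · have h2 := (isWeaklyRegular_map_algebraMap_iff (R := P4 K) (S := P4 K ⧸ curveIdeal K)
      (M := P4 K ⧸ curveIdeal K) [(X 0 : P4 K), X 4]).1
    apply h2
    simpa using h
  · intro htop
    have h1 : (1 : P4 K ⧸ curveIdeal K) ∈
        (Ideal.ofList [(X 0 : P4 K), X 4] • ⊤ : Submodule (P4 K) (P4 K ⧸ curveIdeal K)) := by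
      rw [← htop]; exact Submodule.mem_top
    -- map to `K` by sending everything to zero
    have hle : curveIdeal K ≤ RingHom.ker (constantCoeff (σ := Fin 5) (R := K)) := by
      intro f hf
      rw [RingHom.mem_ker]
      have h4 := eq_zero_of_degree_four (K := K) (f := X 0 ^ 4 * C (constantCoeff f)) (by
        rw [mul_comm]
        have := curveIdeal_component hf 0
        rw [homogeneousComponent_zero] at this
        exact Ideal.mul_mem_right _ _ this) (by
        rw [mul_comm]; exact isHomogeneous_C_mul_X_pow _ _ _)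
      rcases mul_eq_zero.1 h4 with h5 | h5
      · exact absurd h5 (pow_ne_zero _ (X_ne_zero _))
      · simpa using h5
    have hle' : ∀ a ∈ curveIdeal K, constantCoeff a = 0 := fun a ha => RingHom.mem_ker.1 (hle ha)
    have h3 : (Ideal.ofList [(X 0 : P4 K), X 4] • ⊤ : Submodule (P4 K) (P4 K ⧸ curveIdeal K)) ≤
        ((RingHom.ker (Ideal.Quotient.lift (curveIdeal K) (constantCoeff (σ := Fin 5) (R := K))
          hle')).restrictScalars (P4 K)) := by
      rw [Submodule.smul_le]
      rintro r hr n -
      obtain ⟨g, rfl⟩ := Ideal.Quotient.mk_surjective n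
      have e2 : r • (Ideal.Quotient.mk (curveIdeal K) g) =
        Ideal.Quotient.mk (curveIdeal K) (r * g) := rfl
      rw [e2, Submodule.restrictScalars_mem, RingHom.mem_ker, Ideal.Quotient.lift_mk, map_mul]
      have hr0 : constantCoeff r = 0 := by
        have : Ideal.ofList [(X 0 : P4 K), X 4] ≤ RingHom.ker (constantCoeff (σ := Fin 5) (R := K)) := by
          rw [Ideal.ofList, Ideal.span_le]
          intro x hx
          simp only [List.mem_cons, List.not_mem_nil, or_false, Set.mem_ofPred_eq] at hx
          rcases hx with rfl | rfl <;> simp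
        exact RingHom.mem_ker.1 (this hr)
      rw [hr0, zero_mul]
    have h5 := h3 h1
    rw [Submodule.restrictScalars_mem, RingHom.mem_ker, map_one] at h5
    exact one_ne_zero h5

/-- the map from a polynomial ring in two variables -/
noncomputable def baseMap (K : Type*) [Field K] :
    MvPolynomial (Fin 2) K →+* (P4 K ⧸ curveIdeal K) :=
  (Ideal.Quotient.mk (curveIdeal K)).comp
    (aeval (R := K) ![X 0, X 4] : MvPolynomial (Fin 2) K →ₐ[K] P4 K).toRingHom

lemma pow_sub_mem (i : Fin 5) :
    (X i ^ 85 - X 0 ^ (85 - expo i) * X 4 ^ expo i : P4 K) ∈ curveIdeal K := by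
  rw [mem_curveIdeal, map_sub, map_mul, map_pow, map_pow, map_pow]
  have h : ∀ j, paramMap K (X j) = X 0 ^ (85 - expo j) * X 1 ^ expo j := fun j => by
    rw [paramMap, aeval_X]
  rw [h, h, h]
  have e0 : expo 0 = 0 := rfl
  have e4 : expo 4 = 85 := rfl
  rw [e0, e4, Nat.sub_zero, Nat.sub_self, pow_zero, pow_zero, mul_one, one_mul, mul_pow,
    ← pow_mul, ← pow_mul, ← pow_mul, ← pow_mul, mul_comm (85 - expo i) 85, mul_comm (expo i) 85,
    sub_self]

lemma isIntegral_quotient :
    letI := (baseMap K).toAlgebra
    Algebra.IsIntegral (MvPolynomial (Fin 2) K) (P4 K ⧸ curveIdeal K) := by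
  let _ := (baseMap K).toAlgebra
  constructor
  intro x
  obtain ⟨f, rfl⟩ := Ideal.Quotient.mk_surjective x
  induction f using MvPolynomial.induction_on with
  | C a =>
    have : Ideal.Quotient.mk (curveIdeal K) (C a) = algebraMap (MvPolynomial (Fin 2) K) _ (C a) := by
      show _ = baseMap K (C a)
      simp [baseMap]
    rw [this]
    exact isIntegral_algebraMap
  | add p q hp hq => rw [map_add]; exact hp.add hq
  | mul_X p i hp =>
    rw [map_mul]
    apply hp.mul
    apply IsIntegral.of_pow (n := 85) (by norm_num)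
    have : Ideal.Quotient.mk (curveIdeal K) (X i) ^ 85 =
        algebraMap (MvPolynomial (Fin 2) K) _ (X 0 ^ (85 - expo i) * X 1 ^ expo i) := by
      show _ = baseMap K _
      have h1 : baseMap K (X 0 ^ (85 - expo i) * X 1 ^ expo i) =
          Ideal.Quotient.mk (curveIdeal K) (X 0 ^ (85 - expo i) * X 4 ^ expo i) := by
        simp [baseMap]
      rw [h1, ← map_pow, Ideal.Quotient.eq]
      exact pow_sub_mem i
    rw [this]
    exact isIntegral_algebraMap

lemma ringKrullDim_le_two : ringKrullDim (P4 K ⧸ curveIdeal K) ≤ 2 := by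
  let _ := (baseMap K).toAlgebra
  have := isIntegral_quotient (K := K)
  have h1 : ringKrullDim (P4 K ⧸ curveIdeal K) ≤ ringKrullDim (MvPolynomial (Fin 2) K) := by
    apply Order.krullDim_le_of_strictMono
      (fun p : PrimeSpectrum (P4 K ⧸ curveIdeal K) =>
        (⟨p.asIdeal.comap (algebraMap (MvPolynomial (Fin 2) K) _), inferInstance⟩ :
          PrimeSpectrum (MvPolynomial (Fin 2) K)))
    intro p q hpq
    have : p.asIdeal < q.asIdeal := hpq
    exact Ideal.IsIntegral.comap_lt_comap this
  rw [MvPolynomial.ringKrullDim_of_isNoetherianRing, ringKrullDim_eq_zero_of_field] at h1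
  simpa using h1

/-- every maximal ideal contains a translate of the two parameters -/
lemma exists_mem_maximal [IsAlgClosed K] (p : Ideal (P4 K ⧸ curveIdeal K)) [hp : p.IsMaximal] :
    ∃ a b : K, Ideal.Quotient.mk (curveIdeal K) (X 0 - C a) ∈ p ∧
      Ideal.Quotient.mk (curveIdeal K) (X 4 - C b) ∈ p := by
  have hmax : (p.comap (Ideal.Quotient.mk (curveIdeal K))).IsMaximal :=
    Ideal.comap_isMaximal_of_surjective _ Ideal.Quotient.mk_surjective
  rw [isMaximal_iff_eq_vanishingIdeal_singleton] at hmax
  obtain ⟨x, hx⟩ := hmax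
  refine ⟨x 0, x 4, ?_, ?_⟩
  · have : (X 0 - C (x 0) : P4 K) ∈ p.comap (Ideal.Quotient.mk (curveIdeal K)) := by
      rw [hx, mem_vanishingIdeal_singleton_iff]
      simp
    exact this
  · have : (X 4 - C (x 4) : P4 K) ∈ p.comap (Ideal.Quotient.mk (curveIdeal K)) := by
      rw [hx, mem_vanishingIdeal_singleton_iff]
      simp
    exact this

/-- the local ring at a maximal ideal -/
lemma exists_regular_maximal [IsAlgClosed K] (p : Ideal (P4 K ⧸ curveIdeal K))
    [hp : p.IsMaximal] :
    ∃ rs : List (Localization.AtPrime p), IsRegular (Localization.AtPrime p) rs ∧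
      rs.length = 2 := by
  obtain ⟨a, b, ha, hb⟩ := exists_mem_maximal p
  refine ⟨_, (isWeaklyRegular_pair (K := K) a b).isRegular_of_isLocalization_of_mem
    (Localization.AtPrime p) p ?_, by simp⟩
  intro r hr
  simp only [List.mem_cons, List.not_mem_nil, or_false] at hr
  rcases hr with rfl | rfl
  · exact ha
  · exact hb

lemma length_le_ringKrullDim {A : Type*} [CommRing A] [IsLocalRing A] [IsNoetherianRing A]
    (rs : List A) (h : IsRegular A rs) : (rs.length : WithBot ℕ∞) ≤ ringKrullDim A := by
  have h1 := ringKrullDim_add_length_eq_ringKrullDim_of_isRegular rs h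
  rw [← h1]
  have : Nontrivial (A ⧸ Ideal.ofList rs) := by
    apply Ideal.Quotient.nontrivial_iff.2
    intro h'
    apply h.top_ne_smul
    rw [h']; simp
  have h2 := ringKrullDim_nonneg_of_nontrivial (R := A ⧸ Ideal.ofList rs)
  calc (rs.length : WithBot ℕ∞) = 0 + (rs.length : WithBot ℕ∞) := by simp
    _ ≤ _ := by gcongr

lemma ringKrullDim_localization_maximal [IsAlgClosed K] (p : Ideal (P4 K ⧸ curveIdeal K))
    [hp : p.IsMaximal] : ringKrullDim (Localization.AtPrime p) = 2 := by
  obtain ⟨rs, hrs, hlen⟩ := exists_regular_maximal p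
  apply le_antisymm
  · rw [IsLocalization.AtPrime.ringKrullDim_eq_height p (Localization.AtPrime p)]
    exact (Ideal.height_le_ringKrullDim_of_isPrime).trans ringKrullDim_le_two
  · have h1 := length_le_ringKrullDim rs hrs
    rw [hlen] at h1
    exact_mod_cast h1

lemma ringKrullDim_quotient_eq_two [IsAlgClosed K] : ringKrullDim (P4 K ⧸ curveIdeal K) = 2 := by
  apply le_antisymm ringKrullDim_le_two
  obtain ⟨p, hp⟩ := Ideal.exists_maximal (P4 K ⧸ curveIdeal K)
  rw [← ringKrullDim_localization_maximal p, IsLocalization.AtPrime.ringKrullDim_eq_height p (Localization.AtPrime p)]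
  exact Ideal.height_le_ringKrullDim_of_isPrime

theorem isCohenMacaulay_quotient [IsAlgClosed K] :
    IsCohenMacaulayRing (P4 K ⧸ curveIdeal K) := by
  refine ⟨inferInstance, ?_⟩
  intro p hp
  by_cases hmax : p.IsMaximal
  · obtain ⟨rs, hrs, hlen⟩ := exists_regular_maximal p
    refine ⟨rs, hrs, ?_⟩
    rw [hlen, ringKrullDim_localization_maximal p]
    rfl
  · by_cases hbot : p = ⊥
    · subst hbot
      refine ⟨[], IsRegular.nil _ _, ?_⟩
      have e := IsLocalization.AtPrime.ringKrullDim_eq_height
        (⊥ : Ideal (P4 K ⧸ curveIdeal K)) (Localization.AtPrime (⊥ : Ideal (P4 K ⧸ curveIdeal K)))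
      rw [Ideal.height_bot] at e
      rw [e]
      simp
    · obtain ⟨x, hxp, hx0⟩ := Submodule.exists_mem_ne_zero_of_ne_bot hbot
      have hw : IsWeaklyRegular (P4 K ⧸ curveIdeal K) [x] := by
        rw [isWeaklyRegular_singleton_iff]
        intro y z hyz
        exact mul_left_cancel₀ hx0 hyz
      have hreg := hw.isRegular_of_isLocalization_of_mem (Localization.AtPrime p) p (by
        intro r hr
        simp only [List.mem_cons, List.not_mem_nil, or_false] at hr
        rw [hr]; exact hxp)
      refine ⟨_, hreg, ?_⟩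
      simp only [List.map_cons, List.map_nil, List.length_cons, List.length_nil, zero_add]
      apply le_antisymm
      · have h1 := length_le_ringKrullDim _ hreg
        simpa using h1
      · rw [IsLocalization.AtPrime.ringKrullDim_eq_height p (Localization.AtPrime p)]
        obtain ⟨m, hm, hpm⟩ := Ideal.exists_le_maximal p hp.ne_top
        have hlt : p < m := lt_of_le_of_ne hpm (by rintro rfl; exact hmax hm)
        have h1 := Ideal.height_add_one_le_of_lt_of_isPrime hlt
        have h2 : (m.height : WithBot ℕ∞) ≤ 2 :=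
          (Ideal.height_le_ringKrullDim_of_isPrime).trans ringKrullDim_le_two
        have h3 : m.height ≤ 2 := WithBot.coe_le_coe.1 h2
        have h4 : p.height + 1 ≤ 1 + 1 := h1.trans (by simpa [one_add_one_eq_two] using h3)
        have h5 : p.height ≤ 1 := by
          exact (ENat.add_le_add_iff_right (by simp)).1 h4
        exact_mod_cast h5

theorem isIntegralACMCurve [IsAlgClosed K] : IsIntegralACMCurve (curveIdeal K) where
  homogeneous := isHomogeneous_curveIdeal
  saturated := fun f hf => by
    rcases isPrime_curveIdeal.mem_or_mem (hf 0) with h | h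
    · exfalso
      have := X0_sub_notMem (K := K) 0
      rw [C_0, sub_zero] at this
      exact this h
    · exact h
  prime := isPrime_curveIdeal
  dim := ringKrullDim_quotient_eq_two
  cohenMacaulay := isCohenMacaulay_quotient

end Pool.Agent.MP_71c7f5_ag
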