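import Mathlib

/-!
Definitions for the problem on arithmetically Cohen-Macaulay curves in projective 4-space.
-/

namespace Pool.Agent.MP_71c7f5_ag

open MvPolynomial

attribute [local instance] MvPolynomial.gradedAlgebra

/-- The homogeneous coordinate ring `K[x_0, ..., x_4]` of projective 4-space. -/
abbrev P4 (K : Type*) [Field K] := MvPolynomial (Fin 5) K

/-- A commutative ring is Cohen-Macaulay: it is Noetherian and for every prime ideal `p` the local
ring at `p` has a regular sequence whose length is the Krull dimension of that local ring. -/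
def IsCohenMacaulayRing (A : Type*) [CommRing A] : Prop :=
  IsNoetherianRing A ∧
    ∀ (p : Ideal A) [p.IsPrime], ∃ rs : List (Localization.AtPrime p),
      RingTheory.Sequence.IsRegular (Localization.AtPrime p) rs ∧
        (rs.length : WithBot ℕ∞) = ringKrullDim (Localization.AtPrime p)

/-- The homogeneous piece of degree `i` of the quotient algebra `K[x_0, ..., x_4] / J`: the classes
of the forms of degree `i`. -/
noncomputable def gradedPiece {K : Type*} [Field K] (J : Ideal (P4 K)) (i : ℕ) : Submodule K (P4 K ⧸ J) :=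
  (homogeneousSubmodule (Fin 5) K i).map (Ideal.Quotient.mkₐ K J).toLinearMap

/-- Multiplication by `b`, from the piece of degree `i` to the piece of degree `j` of
`K[x_0, ..., x_4] / J`, has maximal rank: it is injective or surjective. -/
def MaxRank {K : Type*} [Field K] (J : Ideal (P4 K)) (b : P4 K ⧸ J) (i j : ℕ) : Prop :=
  (∀ a ∈ gradedPiece J i, b * a = 0 → a = 0) ∨
    (∀ c ∈ gradedPiece J j, ∃ a ∈ gradedPiece J i, b * a = c)

/-- The strong Lefschetz property of the standard graded algebra `K[x_0, ..., x_4] / J`. -/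
def HasSLP {K : Type*} [Field K] (J : Ideal (P4 K)) : Prop :=
  ∃ l ∈ gradedPiece J 1, ∀ i k : ℕ, 1 ≤ k → MaxRank J (l ^ k) i (i + k)

/-- The weak Lefschetz property of the standard graded algebra `K[x_0, ..., x_4] / J`. -/
def HasWLP {K : Type*} [Field K] (J : Ideal (P4 K)) : Prop :=
  ∃ l ∈ gradedPiece J 1, ∀ i : ℕ, MaxRank J l i (i + 1)

/-- `I` is the saturated homogeneous ideal of an integral (reduced and irreducible) arithmetically
Cohen-Macaulay curve in projective 4-space: `I` is a saturated homogeneous prime ideal and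
`K[x_0, ..., x_4] / I` is a Cohen-Macaulay ring of Krull dimension two. -/
structure IsIntegralACMCurve {K : Type*} [Field K] (I : Ideal (P4 K)) : Prop where
  homogeneous : I.IsHomogeneous (homogeneousSubmodule (Fin 5) K)
  saturated : ∀ f : P4 K, (∀ i, X i * f ∈ I) → f ∈ I
  prime : I.IsPrime
  dim : ringKrullDim (P4 K ⧸ I) = 2
  cohenMacaulay : IsCohenMacaulayRing (P4 K ⧸ I)

/-- The exponents `0, 1, 5, 21, 85`. -/
def expo : Fin 5 → ℕ := ![0, 1, 5, 21, 85]

/-- The substitution `x_i ↦ s ^ (85 - e_i) * t ^ e_i`, with `(e_0, ..., e_4) = (0, 1, 5, 21, 85)`. -/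
noncomputable def paramMap (K : Type*) [Field K] : P4 K →ₐ[K] MvPolynomial (Fin 2) K :=
  aeval fun i => X 0 ^ (85 - expo i) * X 1 ^ expo i

/-- The homogeneous ideal of the rational monomial curve
`(s^85 : s^84 t : s^80 t^5 : s^64 t^21 : t^85)`. -/
noncomputable def curveIdeal (K : Type*) [Field K] : Ideal (P4 K) :=
  RingHom.ker (paramMap K)

end Pool.Agent.MP_71c7f5_ag
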