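import Pool.Agent.Lib.MP_71c7f5_ag.Toric

namespace Pool.Agent.MP_71c7f5_ag

open MvPolynomial

attribute [local instance] MvPolynomial.gradedAlgebra

variable {K : Type*} [Field K]

/-- linear form in `x_1, ..., x_4` -/
noncomputable def lin (c : Fin 4 → K) : P4 K := ∑ j, C (c j) * X j.succ

/-- combination of `x_0^4, ..., x_3^4` -/
noncomputable def quar (c : Fin 4 → K) : P4 K := ∑ j, C (c j) * X j.castSucc ^ 4

lemma key_aux (c : K) (p q p' q' N : ℕ) (h3 : N + p' = p * 4) (h4 : q' = q * 4 + 1) :
    (X 1 * (C c * (X 0 ^ p * X 1 ^ q) ^ 4) : MvPolynomial (Fin 2) K) =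
      X 0 ^ N * (C c * (X 0 ^ p' * X 1 ^ q')) := by
  have e : (X 0 ^ (p * 4) : MvPolynomial (Fin 2) K) = X 0 ^ N * X 0 ^ p' := by
    rw [← pow_add, h3]
  rw [h4, mul_pow, ← pow_mul, ← pow_mul, e, pow_succ]
  ring

lemma key (c : Fin 4 → K) :
    X 1 * paramMap K (quar c) = X 0 ^ 256 * paramMap K (lin c) := by
  simp only [quar, lin, map_sum, map_mul, map_pow, Finset.mul_sum]
  refine Finset.sum_congr rfl fun j _ => ?_
  have hC : paramMap K (C (c j)) = C (c j) := by
    rw [paramMap, aeval_C]; rfl
  have h1 : paramMap K (X j.succ) = X 0 ^ (85 - expo j.succ) * X 1 ^ expo j.succ := by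
    rw [paramMap, aeval_X]
  have h2 : paramMap K (X j.castSucc) = X 0 ^ (85 - expo j.castSucc) * X 1 ^ expo j.castSucc := by
    rw [paramMap, aeval_X]
  rw [hC, h1, h2]
  apply key_aux
  · fin_cases j <;> simp [expo]
  · fin_cases j <;> simp [expo]

lemma lin_mul_quar_sub_mem (c d : Fin 4 → K) :
    lin c * quar d - lin d * quar c ∈ curveIdeal K := by
  rw [mem_curveIdeal]
  have h : X 1 * paramMap K (lin c * quar d - lin d * quar c) = 0 := by
    rw [map_sub, map_mul, map_mul]
    calc X 1 * (paramMap K (lin c) * paramMap K (quar d) - paramMap K (lin d) * paramMap K (quar c))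
        = paramMap K (lin c) * (X 1 * paramMap K (quar d)) -
          paramMap K (lin d) * (X 1 * paramMap K (quar c)) := by ring
      _ = 0 := by rw [key, key]; ring
  rcases mul_eq_zero.1 h with h | h
  · exact absurd h (X_ne_zero _)
  · exact h

lemma lin_isHomogeneous (c : Fin 4 → K) : (lin c).IsHomogeneous 1 :=
  IsHomogeneous.sum _ _ _ fun _ _ => isHomogeneous_C_mul_X _ _

lemma quar_isHomogeneous (c : Fin 4 → K) : (quar c).IsHomogeneous 4 :=
  IsHomogeneous.sum _ _ _ fun _ _ => isHomogeneous_C_mul_X_pow _ _ _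

/-- a linear form is a combination of the variables -/
lemma exists_coeffs {n : ℕ} {l : MvPolynomial (Fin n) K}
    (h : l ∈ homogeneousSubmodule (Fin n) K 1) :
    ∃ a : Fin n → K, l = ∑ i, C (a i) * X i := by
  rw [homogeneousSubmodule_one_eq_span_X, Submodule.mem_span_range_iff_exists_fun] at h
  obtain ⟨a, ha⟩ := h
  exact ⟨a, by rw [← ha]; simp [smul_eq_C_mul]⟩

/-- the six minors -/
noncomputable def mv (i j : Fin 4) : P4 K :=
  X i.succ * X j.castSucc ^ 4 - X j.succ * X i.castSucc ^ 4

noncomputable def mvec : Fin 6 → P4 K := ![mv 0 1, mv 0 2, mv 0 3, mv 1 2, mv 1 3, mv 2 3]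

/-- Plücker coordinates -/
def plu (c d : Fin 4 → K) : Fin 6 → K :=
  ![c 0 * d 1 - c 1 * d 0, c 0 * d 2 - c 2 * d 0, c 0 * d 3 - c 3 * d 0,
    c 1 * d 2 - c 2 * d 1, c 1 * d 3 - c 3 * d 1, c 2 * d 3 - c 3 * d 2]

lemma sum_plu (c d : Fin 4 → K) :
    ∑ k, plu c d k • mvec (K := K) k = lin c * quar d - lin d * quar c := by
  simp only [plu, mvec, mv, lin, quar, Fin.sum_univ_four, Fin.sum_univ_six, smul_eq_C_mul]
  simp
  ring

lemma plu_ne_zero {c d : Fin 4 → K} (h : LinearIndependent K ![c, d]) : plu c d ≠ 0 := by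
  intro h0
  have e01 := congrFun h0 0
  have e02 := congrFun h0 1
  have e03 := congrFun h0 2
  have e12 := congrFun h0 3
  have e13 := congrFun h0 4
  have e23 := congrFun h0 5
  simp [plu] at e01 e02 e03 e12 e13 e23
  have hc : c ≠ 0 := h.ne_zero 0
  obtain ⟨i, hi⟩ := Function.ne_iff.1 hc
  have hall : ∀ j, c i * d j = c j * d i := by
    intro j
    fin_cases i <;> fin_cases j <;> simp <;>
      first
        | ring1
        | linear_combination e01
        | linear_combination e02
        | linear_combination e03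
        | linear_combination e12
        | linear_combination e13
        | linear_combination e23
        | linear_combination -e01
        | linear_combination -e02
        | linear_combination -e03
        | linear_combination -e12
        | linear_combination -e13
        | linear_combination -e23
  rw [LinearIndependent.pair_iff] at h
  have := h (d i) (-(c i)) (by
    ext j
    simp only [Pi.add_apply, Pi.smul_apply, smul_eq_mul, Pi.zero_apply]
    linear_combination -(hall j))
  exact hi (by simpa using this.2)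

lemma mvec_mem (k : Fin 6) : mvec (K := K) k ∈ Submodule.span K (Set.range (mvec (K := K))) :=
  Submodule.subset_span ⟨k, rfl⟩

lemma monomial_two (a b : Fin 5) (p q : ℕ) :
    (monomial (Finsupp.single a p + Finsupp.single b q) 1 : P4 K) = X a ^ p * X b ^ q := by
  rw [X_pow_eq_monomial, X_pow_eq_monomial, monomial_mul, one_mul]

/-- reduction of a degree five monomial to a standard one -/
lemma reduce_five (m : Fin 5 →₀ ℕ) (hm : m.degree = 5) :
    ∃ n, Std n ∧ (monomial m 1 - monomial n 1 : P4 K) ∈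
      Submodule.span K (Set.range (mvec (K := K))) := by
  rw [degree_five] at hm
  have key : ∀ (k : Fin 6) (a b c d : Fin 5),
      mvec (K := K) k = X a ^ 1 * X b ^ 4 - X c ^ 1 * X d ^ 4 →
      m = Finsupp.single a 1 + Finsupp.single b 4 →
      Std (Finsupp.single c 1 + Finsupp.single d 4) →
      ∃ n, Std n ∧ (monomial m 1 - monomial n 1 : P4 K) ∈
      Submodule.span K (Set.range (mvec (K := K))) := by
    intro k a b c d h1 h2 h3
    refine ⟨_, h3, ?_⟩
    rw [h2, monomial_two, monomial_two, ← h1]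
    exact mvec_mem k
  by_cases h1 : 5 ≤ m 1
  · apply key 0 1 1 2 0
    · simp [mvec, mv]
    · ext i; fin_cases i <;> simp <;> omega
    · refine ⟨?_, ?_, ?_, ?_, ?_⟩ <;> simp
  by_cases h2 : 1 ≤ m 1 ∧ 4 ≤ m 2
  · apply key 1 1 2 3 0
    · simp [mvec, mv]
    · ext i; fin_cases i <;> simp <;> omega
    · refine ⟨?_, ?_, ?_, ?_, ?_⟩ <;> simp
  by_cases h3 : 1 ≤ m 1 ∧ 4 ≤ m 3
  · apply key 2 1 3 4 0
    · simp [mvec, mv]
    · ext i; fin_cases i <;> simp <;> omega
    · refine ⟨?_, ?_, ?_, ?_, ?_⟩ <;> simp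
  by_cases h4 : 5 ≤ m 2
  · apply key 3 2 2 3 1
    · simp [mvec, mv]
    · ext i; fin_cases i <;> simp <;> omega
    · refine ⟨?_, ?_, ?_, ?_, ?_⟩ <;> simp
  by_cases h5 : 1 ≤ m 2 ∧ 4 ≤ m 3
  · apply key 4 2 3 4 1
    · simp [mvec, mv]
    · ext i; fin_cases i <;> simp <;> omega
    · refine ⟨?_, ?_, ?_, ?_, ?_⟩ <;> simp
  by_cases h6 : 5 ≤ m 3
  · apply key 5 3 3 4 2
    · simp [mvec, mv]
    · ext i; fin_cases i <;> simp <;> omega
    · refine ⟨?_, ?_, ?_, ?_, ?_⟩ <;> simp
  refine ⟨m, ⟨by omega, by omega, by omega, by omega, by omega⟩, by simp⟩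

lemma mvec_mem_ideal (k : Fin 6) : mvec (K := K) k ∈ curveIdeal K := by
  have h : ∀ i j : Fin 4, mv (K := K) i j ∈ curveIdeal K := by
    intro i j
    have := lin_mul_quar_sub_mem (K := K) (Pi.single i 1) (Pi.single j 1)
    have e1 : ∀ i, lin (K := K) (Pi.single i 1) = X i.succ := by
      intro i
      simp [lin, Pi.single_apply]
    have e2 : ∀ i, quar (K := K) (Pi.single i 1) = X i.castSucc ^ 4 := by
      intro i
      simp [quar, Pi.single_apply]
    rw [e1, e1, e2, e2] at this
    exact this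
  fin_cases k <;> simp [mvec] <;> exact h _ _

lemma mem_span_of_degree_five {f : P4 K} (hf : f ∈ curveIdeal K) (h5 : f.IsHomogeneous 5) :
    f ∈ Submodule.span K (Set.range (mvec (K := K))) := by
  classical
  have hdeg : ∀ m ∈ f.support, m.degree = 5 := by
    intro m hm
    by_contra h
    exact (mem_support_iff.1 hm) (h5.coeff_eq_zero h)
  choose! n hn1 hn2 using fun m hm => reduce_five (K := K) m hm
  set g : P4 K := ∑ m ∈ f.support, coeff m f • monomial (n m) 1 with hg
  have hfg : f - g ∈ Submodule.span K (Set.range (mvec (K := K))) := by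
    have : f - g = ∑ m ∈ f.support, coeff m f • (monomial m 1 - monomial (n m) 1) := by
      conv_lhs => rw [f.as_sum]
      rw [hg, ← Finset.sum_sub_distrib]
      refine Finset.sum_congr rfl fun m _ => ?_
      simp only [smul_sub, smul_monomial, smul_eq_mul, mul_one]
    rw [this]
    exact Submodule.sum_mem _ fun m hm => Submodule.smul_mem _ _ (hn2 m (hdeg m hm))
  have hle : Submodule.span K (Set.range (mvec (K := K))) ≤
      (curveIdeal K).restrictScalars K := by
    rw [Submodule.span_le]
    rintro _ ⟨k, rfl⟩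
    exact mvec_mem_ideal k
  have hgI : g ∈ curveIdeal K := by
    have := hle hfg
    have h2 : g = f - (f - g) := by ring
    rw [h2]
    exact Ideal.sub_mem _ hf this
  have hg0 : g = 0 := by
    apply eq_zero_of_std hgI
    intro m hm
    by_contra hstd
    apply mem_support_iff.1 hm
    rw [hg, coeff_sum]
    refine Finset.sum_eq_zero fun k hk => ?_
    rw [coeff_smul, coeff_monomial, if_neg, smul_zero]
    rintro rfl
    exact hstd (hn1 k (hdeg k hk))
  rwa [hg0, sub_zero] at hfg


end Pool.Agent.MP_71c7f5_ag
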