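import Pool.Agent.Lib.MP_71c7f5_ag.Surj

namespace Pool.Agent.MP_71c7f5_ag

open MvPolynomial

attribute [local instance] MvPolynomial.gradedAlgebra

variable {K : Type*} [Field K]

/-- exactness of the Koszul relation of `p, q` modulo `I` -/
def Kos (p q : P4 K) : Prop :=
  ∀ f g, q * f - p * g ∈ curveIdeal K →
    ∃ h, f - p * h ∈ curveIdeal K ∧ g - q * h ∈ curveIdeal K

lemma Kos.symm {p q : P4 K} (h : Kos p q) : Kos q p := by
  intro f g hfg
  obtain ⟨k, h1, h2⟩ := h g f (by
    have : q * g - p * f = -(p * f - q * g) := by ring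
    rw [this]; exact neg_mem hfg)
  exact ⟨k, h2, h1⟩

lemma Kos.comb {p q : P4 K} (h : Kos p q) (x y : K) (hy : y ≠ 0) :
    Kos p (C x * p + C y * q) := by
  intro f g hfg
  have hyy : (C y⁻¹ * C y : P4 K) = 1 := by rw [← C_mul, inv_mul_cancel₀ hy, C_1]
  obtain ⟨k, h1, h2⟩ := h f (C y⁻¹ * (g - C x * f)) (by
    have : q * f - p * (C y⁻¹ * (g - C x * f)) =
        C y⁻¹ * ((C x * p + C y * q) * f - p * g) := by
      linear_combination (-(q * f)) * hyy
    rw [this]
    exact Ideal.mul_mem_left _ _ hfg)
  refine ⟨k, h1, ?_⟩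
  have : g - (C x * p + C y * q) * k =
      C y * (C y⁻¹ * (g - C x * f) - q * k) + C x * (f - p * k) := by
    linear_combination (-(g - C x * f)) * hyy
  rw [this]
  exact add_mem (Ideal.mul_mem_left _ _ h2) (Ideal.mul_mem_left _ _ h1)

/-- degree-4 component of a product with a linear form -/
lemma component_mul {l : P4 K} (hl : l.IsHomogeneous 1) (f : P4 K) (n : ℕ) :
    homogeneousComponent (1 + n) (l * f) = l * homogeneousComponent n f := by
  have h := DirectSum.coe_decompose_mul_add_of_left_mem (homogeneousSubmodule (Fin 5) K)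
    (a := l) (b := f) (i := 1) (j := n) hl
  have h1 : (DirectSum.decompose (homogeneousSubmodule (Fin 5) K) (l * f) (1 + n) : P4 K)
      = homogeneousComponent (1 + n) (l * f) := decomposition.decompose'_apply _ _
  have h2 : (DirectSum.decompose (homogeneousSubmodule (Fin 5) K) f n : P4 K)
      = homogeneousComponent n f := decomposition.decompose'_apply _ _
  rw [h1, h2] at h
  exact h

lemma eq_of_sub_mem {f l h : P4 K} (hf : f.IsHomogeneous 4) (hl : l.IsHomogeneous 1)
    (hm : f - l * h ∈ curveIdeal K) : f = l * homogeneousComponent 3 h := by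
  have h1 := curveIdeal_component hm 4
  have h2 : homogeneousComponent 4 (f - l * h) = f - l * homogeneousComponent 3 h := by
    rw [map_sub, homogeneousComponent_eq_self hf]
    congr 1
    exact component_mul hl h 3
  have h3 := eq_zero_of_degree_four h1 (homogeneousComponent_isHomogeneous 4 _)
  rw [h2] at h3
  exact sub_eq_zero.1 h3

lemma X_mul_quar_sub_mem (j : Fin 4) (c : Fin 4 → K) :
    X j.succ * quar c - lin c * X j.castSucc ^ 4 ∈ curveIdeal K := by
  have := lin_mul_quar_sub_mem (K := K) (Pi.single j 1) c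
  have e1 : lin (K := K) (Pi.single j 1) = X j.succ := by
    simp [lin, Pi.single_apply]
  have e2 : quar (K := K) (Pi.single j 1) = X j.castSucc ^ 4 := by
    simp [quar, Pi.single_apply]
  rw [e1, e2] at this
  exact this

/-- two linear forms in `x_1, ..., x_4` are never regular modulo `I` -/
lemma not_kos_lin (a b : Fin 4 → K) (ha : lin a ∉ curveIdeal K) (h : Kos (lin a) (lin b)) : False := by
  obtain ⟨k, h1, -⟩ := h (quar a) (quar b) (by
    have := lin_mul_quar_sub_mem (K := K) b a
    have e : lin b * quar a - lin a * quar b = lin b * quar a - lin a * quar b := rfl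
    exact this)
  have h2 := eq_of_sub_mem (quar_isHomogeneous a) (lin_isHomogeneous a) h1
  have h3 := X_mul_quar_sub_mem (K := K) 0 a
  rw [h2] at h3
  have h4 : lin a * (X 0 ^ 4 - X 1 * homogeneousComponent 3 k) ∈ curveIdeal K := by
    have : lin a * (X 0 ^ 4 - X 1 * homogeneousComponent 3 k) =
      -(X (Fin.succ 0) * (lin a * homogeneousComponent 3 k) - lin a * X (Fin.castSucc 0) ^ 4) := by
      simp only [Fin.castSucc_zero, Fin.succ_zero_eq_one]
      ring
    rw [this]
    exact neg_mem h3
  have h5 : X 0 ^ 4 - X 1 * homogeneousComponent 3 k ∈ curveIdeal K := by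
    rcases isPrime_curveIdeal.mem_or_mem h4 with h | h
    · exact absurd h ha
    · exact h
  have h6 := eq_of_sub_mem (isHomogeneous_X_pow 0 4) (isHomogeneous_X K 1) h5
  have h7 := congrArg (eval (fun i : Fin 5 => if i = 0 then (1 : K) else 0)) h6
  simp at h7

/-- the socle element is not in `J` -/
lemma quar_notMem {p : P4 K} (hp : p.IsHomogeneous 1) (c : Fin 4 → K) (hc : lin c ≠ 0)
    (h : Kos p (lin c)) : quar c ∉ curveIdeal K ⊔ Ideal.span {p, lin c} := by
  intro hmem
  obtain ⟨w, hw, r, hr, hwr⟩ := Submodule.mem_sup.1 hmem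
  obtain ⟨u, v, huv⟩ := Ideal.mem_span_pair.1 hr
  -- degree four components
  obtain ⟨β, α, hβα⟩ : ∃ β α : P4 K, β.IsHomogeneous 3 ∧ α.IsHomogeneous 3 ∧
      quar c = p * β + lin c * α := by
    refine ⟨homogeneousComponent 3 u, homogeneousComponent 3 v,
      homogeneousComponent_isHomogeneous _ _, homogeneousComponent_isHomogeneous _ _, ?_⟩
    have h1 : quar c - (p * u + lin c * v) ∈ curveIdeal K := by
      have : quar c - (p * u + lin c * v) = w := by
        rw [← hwr, ← huv]; ring
      rw [this]; exact hw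
    have h2 := eq_zero_of_degree_four (curveIdeal_component h1 4)
      (homogeneousComponent_isHomogeneous 4 _)
    rw [map_sub, map_add, homogeneousComponent_eq_self (quar_isHomogeneous c)] at h2
    have h3 : homogeneousComponent 4 (p * u) = p * homogeneousComponent 3 u :=
      component_mul hp u 3
    have h4 : homogeneousComponent 4 (lin c * v) = lin c * homogeneousComponent 3 v :=
      component_mul (lin_isHomogeneous c) v 3
    rw [h3, h4] at h2
    exact sub_eq_zero.1 h2
  obtain ⟨hβ, hα, hq⟩ := hβα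
  have hstep : ∀ j : Fin 4, lin c * X j.castSucc ^ 4 = X j.succ * quar c := by
    intro j
    have h1 := X_mul_quar_sub_mem (K := K) j c
    obtain ⟨k, h2, h3⟩ := h (X j.castSucc ^ 4 - X j.succ * α) (X j.succ * β) (by
      have : lin c * (X j.castSucc ^ 4 - X j.succ * α) - p * (X j.succ * β) =
          -(X j.succ * quar c - lin c * X j.castSucc ^ 4) := by
        rw [hq]; ring
      rw [this]; exact neg_mem h1)
    have hd1 : (X j.castSucc ^ 4 - X j.succ * α : P4 K).IsHomogeneous 4 :=
      (isHomogeneous_X_pow _ 4).sub ((isHomogeneous_X K j.succ).mul hα)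
    have hd2 : (X j.succ * β : P4 K).IsHomogeneous 4 := (isHomogeneous_X K j.succ).mul hβ
    have h4 := eq_of_sub_mem hd1 hp h2
    have h5 := eq_of_sub_mem hd2 (lin_isHomogeneous c) h3
    rw [hq]
    linear_combination (lin c) * h4 - p * h5
  have h0 := hstep 0
  have h1 := hstep 1
  simp only [Fin.castSucc_zero, Fin.succ_zero_eq_one, Fin.succ_one_eq_two] at h0 h1
  have e1 : (Fin.castSucc (1 : Fin 4)) = (1 : Fin 5) := rfl
  rw [e1] at h1
  have h2 : lin c * (X 2 * X 0 ^ 4 - X 1 * X 1 ^ 4) = 0 := by
    linear_combination (X 2) * h0 - (X 1) * h1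
  rcases mul_eq_zero.1 h2 with h3 | h3
  · exact hc h3
  · have h7 := congrArg (eval (fun i : Fin 5 => if i = 1 then (1 : K) else 0)) h3
    simp at h7

end Pool.Agent.MP_71c7f5_ag
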