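import Pool.Agent.Lib.MP_71c7f5_ag.Inj

namespace Pool.Agent.MP_71c7f5_ag

open MvPolynomial RingTheory.Sequence
open scoped Pointwise

attribute [local instance] MvPolynomial.gradedAlgebra

variable {K : Type*} [Field K]

lemma kos_of_regular {l₁ l₂ : P4 K} (h : IsRegular (P4 K ⧸ curveIdeal K) [l₁, l₂]) :
    Kos l₁ l₂ := by
  rw [isRegular_cons_iff, isRegular_cons_iff] at h
  obtain ⟨h1, h2, -⟩ := h
  have e1 : ∀ f : P4 K, l₁ * f ∈ curveIdeal K → f ∈ curveIdeal K := by
    intro f hf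
    have h3 : l₁ • (Ideal.Quotient.mk (curveIdeal K) f) = l₁ • (0 : P4 K ⧸ curveIdeal K) := by
      rw [smul_zero]
      have : l₁ • (Ideal.Quotient.mk (curveIdeal K) f) = Ideal.Quotient.mk (curveIdeal K) (l₁ * f) := rfl
      rw [this, Ideal.Quotient.eq_zero_iff_mem]
      exact hf
    have h4 := h1 h3
    rwa [Ideal.Quotient.eq_zero_iff_mem] at h4
  intro f g hfg
  obtain ⟨k, hk⟩ : ∃ k, f - l₁ * k ∈ curveIdeal K := by
    let M := P4 K ⧸ curveIdeal K
    have h3 : l₂ • (Submodule.Quotient.mk (p := (l₁ • ⊤ : Submodule (P4 K) M))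
        (Ideal.Quotient.mk (curveIdeal K) f : M)) = l₂ • 0 := by
      rw [smul_zero, ← Submodule.Quotient.mk_smul, Submodule.Quotient.mk_eq_zero]
      rw [Submodule.mem_smul_pointwise_iff_exists]
      refine ⟨Ideal.Quotient.mk (curveIdeal K) g, Submodule.mem_top, ?_⟩
      have e2 : l₁ • (Ideal.Quotient.mk (curveIdeal K) g) =
        Ideal.Quotient.mk (curveIdeal K) (l₁ * g) := rfl
      have e3 : l₂ • (Ideal.Quotient.mk (curveIdeal K) f) =
        Ideal.Quotient.mk (curveIdeal K) (l₂ * f) := rfl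
      rw [e2, e3, eq_comm, Ideal.Quotient.eq]
      exact hfg
    have h4 := h2 h3
    rw [Submodule.Quotient.mk_eq_zero, Submodule.mem_smul_pointwise_iff_exists] at h4
    obtain ⟨y, -, hy⟩ := h4
    obtain ⟨k, rfl⟩ := Ideal.Quotient.mk_surjective y
    refine ⟨k, ?_⟩
    have e2 : l₁ • (Ideal.Quotient.mk (curveIdeal K) k) =
        Ideal.Quotient.mk (curveIdeal K) (l₁ * k) := rfl
    rw [e2, eq_comm, Ideal.Quotient.eq] at hy
    exact hy
  refine ⟨k, hk, ?_⟩
  apply e1
  have : l₁ * (g - l₂ * k) = l₂ * (f - l₁ * k) - (l₂ * f - l₁ * g) := by ring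
  rw [this]
  exact sub_mem (Ideal.mul_mem_left _ _ hk) hfg

lemma one_notMem_of_regular {l₁ l₂ : P4 K} (h : IsRegular (P4 K ⧸ curveIdeal K) [l₁, l₂]) :
    (1 : P4 K) ∉ curveIdeal K ⊔ Ideal.span {l₁, l₂} := by
  intro h1
  apply h.top_ne_smul
  symm
  rw [eq_top_iff]
  rintro y -
  obtain ⟨f, rfl⟩ := Ideal.Quotient.mk_surjective y
  obtain ⟨w, hw, r, hr, hwr⟩ := Submodule.mem_sup.1 h1
  have h2 : Ideal.Quotient.mk (curveIdeal K) f = r • Ideal.Quotient.mk (curveIdeal K) f := by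
    have e2 : r • (Ideal.Quotient.mk (curveIdeal K) f) =
        Ideal.Quotient.mk (curveIdeal K) (r * f) := rfl
    rw [e2, Ideal.Quotient.eq]
    have : f - r * f = w * f := by
      linear_combination (-f) * hwr
    rw [this]
    exact Ideal.mul_mem_right _ _ hw
  rw [h2]
  apply Submodule.smul_mem_smul _ Submodule.mem_top
  have e : ({r | r ∈ [l₁, l₂]} : Set (P4 K)) = {l₁, l₂} := by
    ext x; simp
  rw [Ideal.ofList, e]
  exact hr

/-- every linear form is a constant times `X 0` plus a form in the other variables -/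
lemma exists_lin {l : P4 K} (h : l ∈ homogeneousSubmodule (Fin 5) K 1) :
    ∃ (a : K) (c : Fin 4 → K), l = C a * X 0 + lin c := by
  obtain ⟨a, ha⟩ := exists_coeffs h
  refine ⟨a 0, fun j => a j.succ, ?_⟩
  rw [ha, Fin.sum_univ_succ, lin]

/-- the special form of the two linear forms -/
lemma exists_special {l₁ l₂ : P4 K} (h₁ : l₁ ∈ homogeneousSubmodule (Fin 5) K 1)
    (h₂ : l₂ ∈ homogeneousSubmodule (Fin 5) K 1)
    (h : IsRegular (P4 K ⧸ curveIdeal K) [l₁, l₂]) :
    ∃ (a : K) (b c : Fin 4 → K), a ≠ 0 ∧ lin c ≠ 0 ∧ Kos (C a * X 0 + lin b) (lin c) ∧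
      Ideal.span {l₁, l₂} = Ideal.span {C a * X 0 + lin b, lin c} := by
  obtain ⟨a₁, c₁, e₁⟩ := exists_lin h₁
  obtain ⟨a₂, c₂, e₂⟩ := exists_lin h₂
  have hk := kos_of_regular h
  have h1 := one_notMem_of_regular h
  have hinv : ∀ x : K, x ≠ 0 → (C x⁻¹ * C x : P4 K) = 1 := fun x hx => by
    rw [← C_mul, inv_mul_cancel₀ hx, C_1]
  have hlin : ∀ (x y : K) (u v : Fin 4 → K),
      lin (fun j => x * u j + y * v j) = C x * lin u + C y * lin v := by
    intro x y u v
    simp only [lin, Finset.mul_sum, ← Finset.sum_add_distrib, C_add, C_mul]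
    exact Finset.sum_congr rfl fun j _ => by ring
  have hne0 : ∀ p q : P4 K, Kos p q → Ideal.span {l₁, l₂} = Ideal.span {p, q} → q ≠ 0 := by
    intro p q hpq hs hq
    obtain ⟨k, hk1, -⟩ := hpq 1 0 (by rw [hq]; simp)
    apply h1
    rw [hs]
    have : (1 : P4 K) = (1 - p * k) + p * k := by ring
    rw [this]
    apply Ideal.add_mem
    · exact Ideal.mem_sup_left hk1
    · exact Ideal.mem_sup_right (Ideal.mul_mem_right _ _ (Ideal.subset_span (by simp)))
  by_cases ha₁ : a₁ = 0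
  · by_cases ha₂ : a₂ = 0
    · exfalso
      have f1 : l₁ = lin c₁ := by rw [e₁, ha₁]; simp
      have f2 : l₂ = lin c₂ := by rw [e₂, ha₂]; simp
      rw [f1, f2] at hk
      refine not_kos_lin c₁ c₂ ?_ hk
      intro hmem
      rw [← f1] at hmem
      rw [← f1, ← f2] at hk
      -- `l₁ ∈ I` contradicts regularity
      rw [isRegular_cons_iff] at h
      have h3 : l₁ • (Ideal.Quotient.mk (curveIdeal K) 1) = l₁ • (0 : P4 K ⧸ curveIdeal K) := by
        rw [smul_zero]
        have : l₁ • (Ideal.Quotient.mk (curveIdeal K) 1) =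
          Ideal.Quotient.mk (curveIdeal K) (l₁ * 1) := rfl
        rw [this, Ideal.Quotient.eq_zero_iff_mem, mul_one]
        exact hmem
      have h4 := h.1 h3
      rw [Ideal.Quotient.eq_zero_iff_mem] at h4
      exact h1 (Ideal.mem_sup_left h4)
    · -- use `l₂` and `l₁`
      have hs : Ideal.span {l₁, l₂} = Ideal.span {C a₂ * X 0 + lin c₂, lin c₁} := by
        rw [← e₂, Set.pair_comm]
        have f1 : l₁ = lin c₁ := by rw [e₁, ha₁]; simp
        rw [f1]
      have hk2 : Kos (C a₂ * X 0 + lin c₂) (lin c₁) := by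
        rw [← e₂]
        have f1 : l₁ = lin c₁ := by rw [e₁, ha₁]; simp
        rw [← f1]
        exact hk.symm
      exact ⟨a₂, c₂, c₁, ha₂, hne0 _ _ hk2 hs, hk2, hs⟩
  · -- use `l₁` and `a₂ l₁ - a₁ l₂`
    set c : Fin 4 → K := fun j => a₂ * c₁ j + (-a₁) * c₂ j with hc
    have hq : lin c = C a₂ * l₁ + C (-a₁) * l₂ := by
      rw [hc, hlin, e₁, e₂]
      simp only [map_neg]
      ring
    have hs : Ideal.span {l₁, l₂} = Ideal.span {C a₁ * X 0 + lin c₁, lin c} := by
      rw [← e₁]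
      apply le_antisymm
      · rw [Ideal.span_le]
        intro x hx
        rcases hx with rfl | hx
        · exact Ideal.subset_span (by simp)
        · rw [Set.mem_singleton_iff] at hx
          rw [hx, SetLike.mem_coe, Ideal.mem_span_pair]
          refine ⟨C a₁⁻¹ * C a₂, -C a₁⁻¹, ?_⟩
          rw [hq]
          simp only [map_neg]
          linear_combination l₂ * hinv a₁ ha₁
      · rw [Ideal.span_le]
        intro x hx
        rcases hx with rfl | hx
        · exact Ideal.subset_span (by simp)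
        · rw [Set.mem_singleton_iff] at hx
          rw [hx, SetLike.mem_coe, Ideal.mem_span_pair, hq]
          exact ⟨C a₂, C (-a₁), rfl⟩
    have hk2 : Kos (C a₁ * X 0 + lin c₁) (lin c) := by
      rw [← e₁, hq]
      exact hk.comb a₂ (-a₁) (neg_ne_zero.2 ha₁)
    exact ⟨a₁, c₁, c, ha₁, hne0 _ _ hk2 hs, hk2, hs⟩

/-- The multiplication map from degree four to degree five never has maximal rank. -/
theorem not_maxRank {l₁ l₂ : P4 K} (h₁ : l₁ ∈ homogeneousSubmodule (Fin 5) K 1)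
    (h₂ : l₂ ∈ homogeneousSubmodule (Fin 5) K 1)
    (h : IsRegular (P4 K ⧸ curveIdeal K) [l₁, l₂])
    (l : P4 K ⧸ (curveIdeal K ⊔ Ideal.span {l₁, l₂}))
    (hl : l ∈ gradedPiece (curveIdeal K ⊔ Ideal.span {l₁, l₂}) 1) :
    ¬ MaxRank (curveIdeal K ⊔ Ideal.span {l₁, l₂}) l 4 5 := by
  obtain ⟨m, hm, rfl⟩ := hl
  rintro (hinj | hsurj)
  · obtain ⟨a, b, c, ha, hc, hk, hs⟩ := exists_special h₁ h₂ h
    have hp : (C a * X 0 + lin b : P4 K).IsHomogeneous 1 :=
      (isHomogeneous_C_mul_X _ _).add (lin_isHomogeneous b)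
    have hnot := quar_notMem hp c hc hk
    rw [← hs] at hnot
    set J := curveIdeal K ⊔ Ideal.span {l₁, l₂} with hJ
    -- all variables kill the class of `quar c`
    have hpJ : (C a * X 0 + lin b : P4 K) ∈ J := by
      rw [hJ, hs]; exact Ideal.mem_sup_right (Ideal.subset_span (by simp))
    have hqJ : (lin c : P4 K) ∈ J := by
      rw [hJ, hs]; exact Ideal.mem_sup_right (Ideal.subset_span (by simp))
    have hXs : ∀ j : Fin 4, X j.succ * quar c ∈ J := by
      intro j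
      have h3 := X_mul_quar_sub_mem (K := K) j c
      have : X j.succ * quar c = (X j.succ * quar c - lin c * X j.castSucc ^ 4) +
          lin c * X j.castSucc ^ 4 := by ring
      rw [this]
      exact Ideal.add_mem _ (Ideal.mem_sup_left h3) (Ideal.mul_mem_right _ _ hqJ)
    have hlinJ : ∀ d : Fin 4 → K, lin d * quar c ∈ J := by
      intro d
      rw [lin, Finset.sum_mul]
      refine Ideal.sum_mem _ fun j _ => ?_
      rw [mul_assoc]
      exact Ideal.mul_mem_left _ _ (hXs j)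
    have hX0 : X 0 * quar c ∈ J := by
      have hinv : (C a⁻¹ * C a : P4 K) = 1 := by rw [← C_mul, inv_mul_cancel₀ ha, C_1]
      have : X 0 * quar c = C a⁻¹ * ((C a * X 0 + lin b) * quar c - lin b * quar c) := by
        linear_combination (-(X 0 * quar c)) * hinv
      rw [this]
      exact Ideal.mul_mem_left _ _ (Ideal.sub_mem _ (Ideal.mul_mem_right _ _ hpJ) (hlinJ b))
    obtain ⟨x, d, hxd⟩ := exists_lin hm
    have hmq : m * quar c ∈ J := by
      rw [hxd, add_mul, mul_assoc]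
      exact Ideal.add_mem _ (Ideal.mul_mem_left _ _ hX0) (hlinJ d)
    have h5 := hinj (Ideal.Quotient.mk J (quar c))
      ⟨quar c, quar_isHomogeneous c, rfl⟩ (by
        have : (Ideal.Quotient.mkₐ K J).toLinearMap m * Ideal.Quotient.mk J (quar c) =
          Ideal.Quotient.mk J (m * quar c) := rfl
        rw [this, Ideal.Quotient.eq_zero_iff_mem]
        exact hmq)
    rw [Ideal.Quotient.eq_zero_iff_mem] at h5
    exact hnot h5
  · obtain ⟨f, hf, hf2⟩ := not_surj l₁ l₂ m h₁ h₂ hm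
    obtain ⟨y, -, hy⟩ := hsurj (Ideal.Quotient.mk _ f) ⟨f, hf, rfl⟩
    obtain ⟨g, rfl⟩ := Ideal.Quotient.mk_surjective y
    apply hf2 g
    have e : (Ideal.Quotient.mkₐ K (curveIdeal K ⊔ Ideal.span {l₁, l₂})).toLinearMap m *
        Ideal.Quotient.mk _ g = Ideal.Quotient.mk _ (m * g) := rfl
    rw [e, eq_comm, Ideal.Quotient.eq] at hy
    exact hy

theorem not_hasWLP {l₁ l₂ : P4 K} (h₁ : l₁ ∈ homogeneousSubmodule (Fin 5) K 1)
    (h₂ : l₂ ∈ homogeneousSubmodule (Fin 5) K 1)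
    (h : IsRegular (P4 K ⧸ curveIdeal K) [l₁, l₂]) :
    ¬ HasWLP (curveIdeal K ⊔ Ideal.span {l₁, l₂}) := by
  rintro ⟨l, hl, hall⟩
  exact not_maxRank h₁ h₂ h l hl (hall 4)

theorem not_hasSLP {l₁ l₂ : P4 K} (h₁ : l₁ ∈ homogeneousSubmodule (Fin 5) K 1)
    (h₂ : l₂ ∈ homogeneousSubmodule (Fin 5) K 1)
    (h : IsRegular (P4 K ⧸ curveIdeal K) [l₁, l₂]) :
    ¬ HasSLP (curveIdeal K ⊔ Ideal.span {l₁, l₂}) := by
  rintro ⟨l, hl, hall⟩
  have := hall 4 1 le_rfl
  rw [pow_one] at this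
  exact not_maxRank h₁ h₂ h l hl this

end Pool.Agent.MP_71c7f5_ag
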