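import Pool.Agent.Lib.MP_71c7f5_ag.Toric

namespace Pool.Agent.MP_71c7f5_ag

open MvPolynomial

/-- the number of coins `1, 5, 21, 85` used by the greedy algorithm -/
def gam (v : ℕ) : ℕ := v / 85 + (v % 85) / 21 + ((v % 85) % 21) / 5 + ((v % 85) % 21) % 5

lemma gam_85 (v : ℕ) : gam (v + 85) = gam v + 1 := by
  unfold gam; omega

lemma gam_small : ∀ r < 85, gam (r + 1) ≤ gam r + 1 ∧ gam (r + 5) ≤ gam r + 1 ∧
    gam (r + 21) ≤ gam r + 1 := by
  decide

lemma gam_add (q r : ℕ) : gam (r + 85 * q) = gam r + q := by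
  induction q with
  | zero => simp
  | succ n ih =>
    have : r + 85 * (n + 1) = r + 85 * n + 85 := by ring
    rw [this, gam_85, ih]
    ring

lemma gam_step (v : ℕ) : gam (v + 1) ≤ gam v + 1 ∧ gam (v + 5) ≤ gam v + 1 ∧
    gam (v + 21) ≤ gam v + 1 := by
  have h := gam_small (v % 85) (Nat.mod_lt _ (by norm_num))
  have e : v = v % 85 + 85 * (v / 85) := (Nat.mod_add_div v 85).symm
  have e0 : gam v = gam (v % 85) + v / 85 := by
    conv_lhs => rw [e]
    rw [gam_add]
  have e1 : gam (v + 1) = gam (v % 85 + 1) + v / 85 := by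
    conv_lhs => rw [e]
    rw [← gam_add]; congr 1; ring
  have e5 : gam (v + 5) = gam (v % 85 + 5) + v / 85 := by
    conv_lhs => rw [e]
    rw [← gam_add]; congr 1; ring
  have e21 : gam (v + 21) = gam (v % 85 + 21) + v / 85 := by
    conv_lhs => rw [e]
    rw [← gam_add]; congr 1; ring
  omega

lemma gam_le (a b c d : ℕ) : gam (a + 5 * b + 21 * c + 85 * d) ≤ a + b + c + d := by
  rw [gam_add]
  have h1 : ∀ a, gam a ≤ a := by
    intro a
    induction a with
    | zero => decide
    | succ n ih => have := (gam_step n).1; omega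
  have h2 : ∀ b, gam (a + 5 * b) ≤ a + b := by
    intro b
    induction b with
    | zero => simpa using h1 a
    | succ n ih =>
      have e : a + 5 * (n + 1) = a + 5 * n + 5 := by ring
      rw [e]
      have := (gam_step (a + 5 * n)).2.1
      omega
  have h3 : ∀ c, gam (a + 5 * b + 21 * c) ≤ a + b + c := by
    intro c
    induction c with
    | zero => simpa using h2 b
    | succ n ih =>
      have e : a + 5 * b + 21 * (n + 1) = a + 5 * b + 21 * n + 21 := by ring
      rw [e]
      have := (gam_step (a + 5 * b + 21 * n)).2.2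
      omega
  have := h3 c
  omega

end Pool.Agent.MP_71c7f5_ag
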