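import Pool.Agent.Lib.MP_71c7f5_ag.Normal

namespace Pool.Agent.MP_71c7f5_ag

open MvPolynomial
open scoped Pointwise

variable {K : Type*} [Field K]

/-- total degree upstairs of an exponent downstairs -/
def dd (n : Fin 2 →₀ ℕ) : ℕ := (n 0 + n 1) / 85

/-- the normal form, with `x_0` replaced by `a`, of a monomial downstairs -/
noncomputable def rho (a : K) : MvPolynomial (Fin 2) K →ₗ[K] MvPolynomial (Fin 2) K :=
  (basisMonomials (Fin 2) K).constr K fun n =>
    monomial (Finsupp.single 0 (n 1 % 85) + Finsupp.single 1 (n 1 / 85)) (a ^ (dd n - gam (n 1)))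

lemma rho_monomial (a : K) (n : Fin 2 →₀ ℕ) (c : K) :
    rho a (monomial n c) =
      monomial (Finsupp.single 0 (n 1 % 85) + Finsupp.single 1 (n 1 / 85))
        (c * a ^ (dd n - gam (n 1))) := by
  have h : (monomial n c : MvPolynomial (Fin 2) K) = c • basisMonomials (Fin 2) K n := by
    rw [coe_basisMonomials, smul_monomial, smul_eq_mul, mul_one]
  rw [h, map_smul, rho, Module.Basis.constr_basis, smul_monomial, smul_eq_mul]

/-- digits -/
noncomputable def dig (n : Fin 2 →₀ ℕ) : Fin 5 →₀ ℕ :=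
  Finsupp.single 1 ((n 0 % 21) % 5) + Finsupp.single 2 ((n 0 % 21) / 5) +
    Finsupp.single 3 (n 0 / 21) + Finsupp.single 4 (n 1)

noncomputable def lam : MvPolynomial (Fin 2) K →ₗ[K] P4 K :=
  (basisMonomials (Fin 2) K).constr K fun n => monomial (dig n) 1

lemma lam_monomial (n : Fin 2 →₀ ℕ) (c : K) :
    lam (monomial n c) = monomial (dig n) c := by
  have h : (monomial n c : MvPolynomial (Fin 2) K) = c • basisMonomials (Fin 2) K n := by
    rw [coe_basisMonomials, smul_monomial, smul_eq_mul, mul_one]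
  rw [h, map_smul, lam, Module.Basis.constr_basis, smul_monomial, smul_eq_mul, mul_one]

/-- the composite -/
noncomputable def FF (a : K) (f : P4 K) : MvPolynomial (Fin 2) K := rho a (paramMap K f)

lemma FF_add (a : K) (f g : P4 K) : FF a (f + g) = FF a f + FF a g := by
  simp [FF]

lemma FF_sub (a : K) (f g : P4 K) : FF a (f - g) = FF a f - FF a g := by
  simp [FF]

lemma FF_C_mul (a b : K) (f : P4 K) : FF a (C b * f) = C b * FF a f := by
  rw [FF, ← smul_eq_C_mul, map_smul, map_smul, smul_eq_C_mul]; rfl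

lemma FF_mem (a : K) {f : P4 K} (hf : f ∈ curveIdeal K) : FF a f = 0 := by
  rw [FF, mem_curveIdeal.1 hf, map_zero]

lemma dd_wt (m : Fin 5 →₀ ℕ) : dd (wt m) = m 0 + m 1 + m 2 + m 3 + m 4 := by
  rw [dd, wt_zero, wt_one]
  omega

lemma FF_monomial (a : K) (m : Fin 5 →₀ ℕ) (c : K) :
    FF a (monomial m c) =
      monomial (Finsupp.single 0 ((m 1 + 5 * m 2 + 21 * m 3 + 85 * m 4) % 85) +
        Finsupp.single 1 ((m 1 + 5 * m 2 + 21 * m 3 + 85 * m 4) / 85))
        (c * a ^ (m 0 + m 1 + m 2 + m 3 + m 4 - gam (m 1 + 5 * m 2 + 21 * m 3 + 85 * m 4))) := by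
  rw [FF, paramMap_monomial, rho_monomial, dd_wt, wt_one]

lemma FF_X0_mul (a : K) (f : P4 K) : FF a (X 0 * f) = C a * FF a f := by
  induction f using MvPolynomial.induction_on' with
  | add p q hp hq => rw [mul_add, FF_add, FF_add, hp, hq, mul_add]
  | monomial m c =>
    have h1 : (X 0 * monomial m c : P4 K) = monomial (Finsupp.single 0 1 + m : Fin 5 →₀ ℕ) c := by
      rw [X, monomial_mul, one_mul]
    rw [h1, FF_monomial, FF_monomial, C_mul_monomial]
    have e0 : (Finsupp.single 0 1 + m : Fin 5 →₀ ℕ) 0 = m 0 + 1 := by simp [add_comm]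
    have e1 : (Finsupp.single 0 1 + m : Fin 5 →₀ ℕ) 1 = m 1 := by simp
    have e2 : (Finsupp.single 0 1 + m : Fin 5 →₀ ℕ) 2 = m 2 := by simp
    have e3 : (Finsupp.single 0 1 + m : Fin 5 →₀ ℕ) 3 = m 3 := by simp
    have e4 : (Finsupp.single 0 1 + m : Fin 5 →₀ ℕ) 4 = m 4 := by simp
    rw [e0, e1, e2, e3, e4]
    have h2 := gam_le (m 1) (m 2) (m 3) (m 4)
    have h3 : m 0 + 1 + m 1 + m 2 + m 3 + m 4 - gam (m 1 + 5 * m 2 + 21 * m 3 + 85 * m 4) =
      (m 0 + m 1 + m 2 + m 3 + m 4 - gam (m 1 + 5 * m 2 + 21 * m 3 + 85 * m 4)) + 1 := by omega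
    rw [h3, pow_succ]
    congr 1
    ring

lemma FF_X4_mul (a : K) (f : P4 K) : FF a (X 4 * f) = X 1 * FF a f := by
  induction f using MvPolynomial.induction_on' with
  | add p q hp hq => rw [mul_add, FF_add, FF_add, hp, hq, mul_add]
  | monomial m c =>
    have h1 : (X 4 * monomial m c : P4 K) = monomial (Finsupp.single 4 1 + m : Fin 5 →₀ ℕ) c := by
      rw [X, monomial_mul, one_mul]
    rw [h1, FF_monomial, FF_monomial]
    have e0 : (Finsupp.single 4 1 + m : Fin 5 →₀ ℕ) 0 = m 0 := by simp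
    have e1 : (Finsupp.single 4 1 + m : Fin 5 →₀ ℕ) 1 = m 1 := by simp
    have e2 : (Finsupp.single 4 1 + m : Fin 5 →₀ ℕ) 2 = m 2 := by simp
    have e3 : (Finsupp.single 4 1 + m : Fin 5 →₀ ℕ) 3 = m 3 := by simp
    have e4 : (Finsupp.single 4 1 + m : Fin 5 →₀ ℕ) 4 = m 4 + 1 := by simp [add_comm]
    rw [e0, e1, e2, e3, e4]
    set v := m 1 + 5 * m 2 + 21 * m 3 + 85 * m 4 with hv
    have h2 : m 1 + 5 * m 2 + 21 * m 3 + 85 * (m 4 + 1) = v + 85 := by rw [hv]; ring
    rw [h2, gam_85]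
    have h3 : m 0 + m 1 + m 2 + m 3 + (m 4 + 1) - (gam v + 1) =
      m 0 + m 1 + m 2 + m 3 + m 4 - gam v := by omega
    have h4 : (v + 85) % 85 = v % 85 := by omega
    have h5 : (v + 85) / 85 = 1 + v / 85 := by omega
    have h6 : (Finsupp.single 1 1 + (Finsupp.single 0 (v % 85) + Finsupp.single 1 (v / 85)) :
        Fin 2 →₀ ℕ) = Finsupp.single 0 (v % 85) + Finsupp.single 1 (1 + v / 85) := by
      rw [Finsupp.single_add]; abel
    rw [h3, h4, h5, X, monomial_mul, one_mul, h6]

/-- each polynomial is congruent to its normal form modulo `I` and `X 0 - a` -/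
lemma sub_lam_mem (a : K) (f : P4 K) :
    f - lam (FF a f) ∈ curveIdeal K ⊔ Ideal.span {X 0 - C a} := by
  induction f using MvPolynomial.induction_on' with
  | add p q hp hq =>
    rw [FF_add, map_add]
    have : p + q - (lam (FF a p) + lam (FF a q)) = (p - lam (FF a p)) + (q - lam (FF a q)) := by
      ring
    rw [this]
    exact Ideal.add_mem _ hp hq
  | monomial m c =>
    rw [FF_monomial, lam_monomial]
    set v := m 1 + 5 * m 2 + 21 * m 3 + 85 * m 4 with hv
    set p := m 0 + m 1 + m 2 + m 3 + m 4 - gam v with hp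
    have hg := gam_le (m 1) (m 2) (m 3) (m 4)
    rw [← hv] at hg
    set D : Fin 5 →₀ ℕ := dig (Finsupp.single 0 (v % 85) + Finsupp.single 1 (v / 85)) with hD
    have d0 : D 0 = 0 := by simp [hD, dig]
    have d1 : D 1 = (v % 85 % 21) % 5 := by simp [hD, dig]
    have d2 : D 2 = (v % 85 % 21) / 5 := by simp [hD, dig]
    have d3 : D 3 = (v % 85) / 21 := by simp [hD, dig]
    have d4 : D 4 = v / 85 := by simp [hD, dig]
    have hgam : gam v = v / 85 + (v % 85) / 21 + ((v % 85) % 21) / 5 + ((v % 85) % 21) % 5 := rfl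
    have h1 : (monomial m c - monomial D (c * a ^ p) : P4 K) =
        (monomial m c - monomial (Finsupp.single 0 p + D) c) +
          monomial D c * (X 0 ^ p - C a ^ p) := by
      have e1 : (monomial (Finsupp.single 0 p + D) c : P4 K) = monomial D c * X 0 ^ p := by
        rw [X_pow_eq_monomial, monomial_mul, mul_one, add_comm]
      have e2 : (monomial D (c * a ^ p) : P4 K) = monomial D c * C a ^ p := by
        rw [← C_pow, mul_comm (monomial D c), C_mul_monomial, mul_comm]
      rw [e1, e2]; ring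
    rw [h1]
    apply Ideal.add_mem
    · apply Ideal.mem_sup_left
      rw [mem_curveIdeal, map_sub, paramMap_monomial, paramMap_monomial, sub_eq_zero]
      suffices hwt : wt m = wt (Finsupp.single 0 p + D) by rw [hwt]
      rw [wt_eq_iff]
      have c0 : (Finsupp.single 0 p + D : Fin 5 →₀ ℕ) 0 = p := by simp [d0]
      have c1 : (Finsupp.single 0 p + D : Fin 5 →₀ ℕ) 1 = D 1 := by simp
      have c2 : (Finsupp.single 0 p + D : Fin 5 →₀ ℕ) 2 = D 2 := by simp
      have c3 : (Finsupp.single 0 p + D : Fin 5 →₀ ℕ) 3 = D 3 := by simp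
      have c4 : (Finsupp.single 0 p + D : Fin 5 →₀ ℕ) 4 = D 4 := by simp
      rw [c0, c1, c2, c3, c4, d1, d2, d3, d4]
      omega
    · apply Ideal.mem_sup_right
      apply Ideal.mul_mem_left
      rw [Ideal.mem_span_singleton]
      exact sub_dvd_pow_sub_pow _ _ _

lemma X0_sub_notMem (a : K) : (X 0 - C a : P4 K) ∉ curveIdeal K := by
  intro h
  rw [mem_curveIdeal, map_sub] at h
  have h1 := congrArg (coeff (Finsupp.single 0 85)) h
  have e1 : paramMap K (X 0) = monomial (Finsupp.single 0 85) 1 := by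
    rw [paramMap, aeval_X]
    simp [expo, X_pow_eq_monomial]
  have e2 : paramMap K (C a) = C a := by rw [paramMap, aeval_C]; rfl
  rw [e1, e2, coeff_sub, coeff_monomial, if_pos rfl, coeff_C, if_neg, coeff_zero] at h1
  · simp at h1
  · intro h2
    have := DFunLike.congr_fun h2 0
    simp at this

lemma mem_of_X4_sub_mul_mem (a b : K) {f : P4 K}
    (h : (X 4 - C b) * f ∈ curveIdeal K ⊔ Ideal.span {X 0 - C a}) :
    f ∈ curveIdeal K ⊔ Ideal.span {X 0 - C a} := by
  have hF : FF a f = 0 := by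
    obtain ⟨w, hw, r, hr, hwr⟩ := Submodule.mem_sup.1 h
    obtain ⟨g, rfl⟩ := Ideal.mem_span_singleton.1 hr
    have h1 : FF a ((X 4 - C b) * f) = 0 := by
      rw [← hwr, FF_add, FF_mem a hw, sub_mul, FF_sub, FF_X0_mul, FF_C_mul]
      ring
    have h2 : FF a ((X 4 - C b) * f) = (X 1 - C b) * FF a f := by
      rw [sub_mul, FF_sub, FF_X4_mul, FF_C_mul, sub_mul]
    rw [h2] at h1
    rcases mul_eq_zero.1 h1 with h3 | h3
    · exfalso
      have h4 := congrArg (eval (fun _ => b + 1)) h3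
      simp at h4
    · exact h3
  have := sub_lam_mem a f
  rw [hF, map_zero, sub_zero] at this
  exact this

end Pool.Agent.MP_71c7f5_ag
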