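import Pool.Agent.Lib.MP_71c7f5_ag.Fail

namespace Pool.Agent.MP_71c7f5_ag

open MvPolynomial

attribute [local instance] MvPolynomial.gradedAlgebra

variable {K : Type*} [Field K]

/-- restriction of forms to the line spanned by two vectors -/
noncomputable def theta (M : Fin 2 → Fin 5 → K) : P4 K →ₐ[K] MvPolynomial (Fin 2) K :=
  aeval fun i => ∑ j, C (M j i) * X j

lemma theta_X (M : Fin 2 → Fin 5 → K) (i : Fin 5) :
    theta M (X i) = ∑ j, C (M j i) * X j := by
  rw [theta, aeval_X]

lemma theta_C (M : Fin 2 → Fin 5 → K) (a : K) : theta M (C a) = C a := by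
  rw [theta, aeval_C]; rfl

lemma theta_lin_comb (M : Fin 2 → Fin 5 → K) (a : Fin 5 → K) :
    theta M (∑ i, C (a i) * X i) = ∑ j, C (∑ i, a i * M j i) * X j := by
  simp only [map_sum, map_mul, theta_X, theta_C, Finset.mul_sum, Finset.sum_mul]
  rw [Finset.sum_comm]
  refine Finset.sum_congr rfl fun j _ => Finset.sum_congr rfl fun i _ => ?_
  ring

lemma theta_component (M : Fin 2 → Fin 5 → K) (n : ℕ) (p : P4 K) :
    homogeneousComponent n (theta M p) = theta M (homogeneousComponent n p) := by
  have hlin : ∀ i : Fin 5, (∑ j, C (M j i) * X j : MvPolynomial (Fin 2) K).IsHomogeneous 1 :=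
    fun i => IsHomogeneous.sum _ _ _ fun j _ => isHomogeneous_C_mul_X _ _
  induction p using MvPolynomial.induction_on' with
  | monomial d c =>
    have h1 : (theta M (monomial d c)).IsHomogeneous (1 * d.degree) :=
      (isHomogeneous_monomial c rfl).aeval _ hlin
    rw [one_mul] at h1
    rw [homogeneousComponent_of_mem h1,
      homogeneousComponent_of_mem (isHomogeneous_monomial c rfl)]
    split_ifs <;> simp
  | add p q hp hq => simp only [map_add, hp, hq]

/-- Two independent vectors in the kernel of a linear map whose target is small. -/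
lemma exists_pair {n k : ℕ} (L : (Fin n → K) →ₗ[K] (Fin k → K)) (h : k + 2 ≤ n) :
    ∃ M : Fin 2 → Fin n → K, LinearIndependent K M ∧ ∀ j, L (M j) = 0 := by
  have h1 := LinearMap.finrank_range_add_finrank_ker L
  have h2 : Module.finrank K (LinearMap.range L) ≤ k := by
    have := Submodule.finrank_le (LinearMap.range L)
    simpa using this
  have h3 : Module.finrank K (Fin n → K) = n := by simp
  have h4 : 2 ≤ Module.finrank K (LinearMap.ker L) := by omega
  obtain ⟨f, hf⟩ := exists_linearIndependent_of_le_finrank h4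
  refine ⟨fun j => (f j : Fin n → K), ?_, fun j => (f j).2⟩
  exact hf.map' (LinearMap.ker L).subtype (Submodule.ker_subtype _)

/-- The restriction to a line of the degree five part of the ideal has dimension at most five. -/
lemma theta_span (M : Fin 2 → Fin 5 → K) :
    Module.finrank K (Submodule.span K (Set.range fun k => theta M (mvec k))) ≤ 5 := by
  obtain ⟨cd, hcd, hL⟩ := exists_pair (n := 4) (k := 2)
    (LinearMap.pi fun j : Fin 2 => ∑ i : Fin 4, (M j i.succ) • LinearMap.proj (R := K) (φ := fun _ => K) i)
    (by norm_num)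
  have hz : ∀ k, theta M (lin (cd k)) = 0 := by
    intro k
    have h1 : lin (cd k) = ∑ i : Fin 5, C ((Fin.cons 0 (cd k) : Fin 5 → K) i) * X i := by
      conv_rhs => rw [Fin.sum_univ_succ]
      simp [lin]
    rw [h1, theta_lin_comb]
    refine Finset.sum_eq_zero fun j _ => ?_
    have h2 := congrFun (hL k) j
    simp only [LinearMap.pi_apply, LinearMap.sum_apply, LinearMap.smul_apply, LinearMap.proj_apply,
      smul_eq_mul, Pi.zero_apply] at h2
    have h3 : ∑ i : Fin 5, (Fin.cons 0 (cd k) : Fin 5 → K) i * M j i = 0 := by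
      rw [Fin.sum_univ_succ]
      simp only [Fin.cons_zero, zero_mul, Fin.cons_succ, zero_add]
      rw [← h2]
      exact Finset.sum_congr rfl fun i _ => mul_comm _ _
    rw [h3]; simp
  have hrel : ∑ k, plu (cd 0) (cd 1) k • theta M (mvec k) = 0 := by
    have := congrArg (theta M) (sum_plu (cd 0) (cd 1))
    rw [map_sub, map_mul, map_mul, hz, hz, zero_mul, zero_mul, sub_zero, map_sum] at this
    simpa using this
  have hne : plu (cd 0) (cd 1) ≠ 0 := by
    apply plu_ne_zero
    have : ![cd 0, cd 1] = cd := by
      ext i j; fin_cases i <;> rfl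
    rw [this]
    exact hcd
  by_contra hgt
  have h6 : (Set.range fun k => theta M (mvec (K := K) k)).finrank K ≤ Fintype.card (Fin 6) :=
    finrank_range_le_card _
  have h6' : Fintype.card (Fin 6) = (Set.range fun k => theta M (mvec (K := K) k)).finrank K := by
    apply le_antisymm _ h6
    simp only [Fintype.card_fin]
    have : 5 < (Set.range fun k => theta M (mvec (K := K) k)).finrank K := not_le.1 hgt
    omega
  have hli := linearIndependent_iff_card_eq_finrank_span.2 h6'
  rw [Fintype.linearIndependent_iff] at hli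
  exact hne (funext fun k => hli _ hrel k)

/-- not every form of degree five is in the span of `I`, and three linear forms -/
theorem not_surj (l₁ l₂ l : P4 K) (h₁ : l₁ ∈ homogeneousSubmodule (Fin 5) K 1)
    (h₂ : l₂ ∈ homogeneousSubmodule (Fin 5) K 1) (h : l ∈ homogeneousSubmodule (Fin 5) K 1) :
    ∃ f ∈ homogeneousSubmodule (Fin 5) K 5, ∀ a, f - l * a ∉ curveIdeal K ⊔ Ideal.span {l₁, l₂} := by
  obtain ⟨a₁, rfl⟩ := exists_coeffs h₁
  obtain ⟨a₂, rfl⟩ := exists_coeffs h₂
  obtain ⟨a₃, rfl⟩ := exists_coeffs h
  obtain ⟨M, hM, hL⟩ := exists_pair (n := 5) (k := 3)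
    (LinearMap.pi ![∑ i, a₁ i • LinearMap.proj (R := K) (φ := fun _ => K) i,
      ∑ i, a₂ i • LinearMap.proj (R := K) (φ := fun _ => K) i,
      ∑ i, a₃ i • LinearMap.proj (R := K) (φ := fun _ => K) i])
    (by norm_num)
  have t1 : theta M (∑ i, C (a₁ i) * X i) = 0 := by
    rw [theta_lin_comb]
    refine Finset.sum_eq_zero fun j _ => ?_
    have := congrFun (hL j) 0
    simp at this
    rw [this]; simp
  have t2 : theta M (∑ i, C (a₂ i) * X i) = 0 := by
    rw [theta_lin_comb]
    refine Finset.sum_eq_zero fun j _ => ?_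
    have := congrFun (hL j) 1
    simp at this
    rw [this]; simp
  have t3 : theta M (∑ i, C (a₃ i) * X i) = 0 := by
    rw [theta_lin_comb]
    refine Finset.sum_eq_zero fun j _ => ?_
    have := congrFun (hL j) 2
    simp at this
    rw [this]; simp
  -- left inverse
  obtain ⟨A, hA⟩ : ∃ A : Fin 2 → Fin 5 → K, ∀ j j', ∑ i, A j i * M j' i = if j' = j then 1 else 0 := by
    have hinj : LinearMap.ker (Fintype.linearCombination K M) = ⊥ := by
      rw [Fintype.linearIndependent_iff] at hM
      rw [LinearMap.ker_eq_bot']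
      intro g hg
      ext j
      exact hM g (by simpa [Fintype.linearCombination_apply] using hg) j
    obtain ⟨L, hL'⟩ := LinearMap.exists_leftInverse_of_injective _ hinj
    refine ⟨fun j i => L (Pi.single i 1) j, ?_⟩
    intro j j'
    have h1 := congrFun (LinearMap.congr_fun hL' (Pi.single j' 1)) j
    simp only [LinearMap.comp_apply, LinearMap.id_apply] at h1
    rw [Fintype.linearCombination_apply] at h1
    have h2 : ∑ i, (Pi.single j' 1 : Fin 2 → K) i • M i = M j' := by
      simp [Pi.single_apply]
    rw [h2] at h1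
    have h3 : M j' = ∑ i, M j' i • (Pi.single i 1 : Fin 5 → K) := by
      ext k
      simp [Pi.single_apply]
    rw [h3, map_sum] at h1
    simp only [map_smul, Finset.sum_apply, Pi.smul_apply, smul_eq_mul] at h1
    rw [Pi.single_apply] at h1
    have h4 : (if j' = j then (1:K) else 0) = if j = j' then 1 else 0 := by
      by_cases h : j = j'
      · simp [h]
      · simp [h, Ne.symm h]
    rw [h4, ← h1]
    exact Finset.sum_congr rfl fun i _ => mul_comm _ _
  have tA : ∀ j, theta M (∑ i, C (A j i) * X i) = X j := by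
    intro j
    rw [theta_lin_comb]
    simp only [hA]
    simp
  by_contra hcon
  push Not at hcon
  -- all binary forms are in the image
  have hmem : ∀ i : Fin 6, (X 0 ^ (i : ℕ) * X 1 ^ (5 - (i : ℕ)) : MvPolynomial (Fin 2) K) ∈
      Submodule.span K (Set.range fun k => theta M (mvec k)) := by
    intro i
    set f : P4 K := (∑ i, C (A 0 i) * X i) ^ (i : ℕ) * (∑ i, C (A 1 i) * X i) ^ (5 - (i : ℕ)) with hf
    have hlin : ∀ j, (∑ i, C (A j i) * X i : P4 K).IsHomogeneous 1 := fun j =>
      IsHomogeneous.sum _ _ _ fun _ _ => isHomogeneous_C_mul_X _ _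
    have hf5 : f.IsHomogeneous 5 := by
      have h1 := ((hlin 0).pow (i : ℕ)).mul ((hlin 1).pow (5 - (i : ℕ)))
      have h2 : 1 * (i : ℕ) + 1 * (5 - (i : ℕ)) = 5 := by have := i.2; omega
      rwa [h2] at h1
    obtain ⟨a, ha⟩ := hcon f hf5
    obtain ⟨q, hq, r, hr, hqr⟩ := Submodule.mem_sup.1 ha
    obtain ⟨u, v, huv⟩ := Ideal.mem_span_pair.1 hr
    have h1 : theta M f = theta M q := by
      have h2 := congrArg (theta M) hqr
      rw [← huv] at h2
      simp only [map_add, map_sub, map_mul, t1, t2, t3, mul_zero, add_zero, zero_mul, sub_zero] at h2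
      exact h2.symm
    have h3 : theta M f = X 0 ^ (i : ℕ) * X 1 ^ (5 - (i : ℕ)) := by
      rw [hf, map_mul, map_pow, map_pow, tA, tA]
    have h4 : theta M f = theta M (homogeneousComponent 5 q) := by
      rw [← theta_component, ← h1, theta_component, homogeneousComponent_eq_self hf5]
    rw [← h3, h4]
    have h5 := mem_span_of_degree_five (curveIdeal_component hq 5)
      (homogeneousComponent_isHomogeneous 5 q)
    have h6 : theta M (homogeneousComponent 5 q) ∈
        (Submodule.span K (Set.range (mvec (K := K)))).map (theta M).toLinearMap :=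
      Submodule.mem_map_of_mem h5
    rw [Submodule.map_span, ← Set.range_comp] at h6
    exact h6
  have hli : LinearIndependent K
      (fun i : Fin 6 => (X 0 ^ (i : ℕ) * X 1 ^ (5 - (i : ℕ)) : MvPolynomial (Fin 2) K)) := by
    rw [Fintype.linearIndependent_iff]
    intro g hg i
    have h1 := congrArg (coeff (Finsupp.single 0 (i : ℕ) + Finsupp.single 1 (5 - (i : ℕ)))) hg
    rw [coeff_sum, Finset.sum_eq_single i] at h1
    · rw [X_pow_eq_monomial, X_pow_eq_monomial, monomial_mul, smul_monomial, coeff_monomial,
        if_pos rfl] at h1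
      simpa using h1
    · intro j _ hj
      rw [X_pow_eq_monomial, X_pow_eq_monomial, monomial_mul, smul_monomial, coeff_monomial,
        if_neg]
      intro hh
      apply hj
      have := DFunLike.congr_fun hh 0
      simp at this
      exact Fin.ext this
    · intro hh; exact absurd (Finset.mem_univ i) hh
  have hle : Submodule.span K (Set.range
      (fun i : Fin 6 => (X 0 ^ (i : ℕ) * X 1 ^ (5 - (i : ℕ)) : MvPolynomial (Fin 2) K))) ≤
      Submodule.span K (Set.range fun k => theta M (mvec k)) := by
    rw [Submodule.span_le]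
    rintro _ ⟨i, rfl⟩
    exact hmem i
  have hfin : Module.finrank K (Submodule.span K (Set.range
      (fun i : Fin 6 => (X 0 ^ (i : ℕ) * X 1 ^ (5 - (i : ℕ)) : MvPolynomial (Fin 2) K)))) = 6 := by
    rw [finrank_span_eq_card hli]; simp
  have : FiniteDimensional K (Submodule.span K (Set.range fun k => theta M (mvec (K := K) k))) :=
    FiniteDimensional.span_of_finite K (Set.finite_range _)
  have h7 := Submodule.finrank_mono hle
  rw [hfin] at h7
  have h8 := theta_span M
  omega

end Pool.Agent.MP_71c7f5_ag
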