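import Pool.Agent.Lib.MP_71c7f5_ag.Defs

namespace Pool.Agent.MP_71c7f5_ag

open MvPolynomial

attribute [local instance] MvPolynomial.gradedAlgebra

variable (K : Type*) [Field K]

/-- image exponent of a monomial under the parametrization -/
noncomputable def wt (m : Fin 5 →₀ ℕ) : Fin 2 →₀ ℕ :=
  Finsupp.single 0 (85 * m 0 + 84 * m 1 + 80 * m 2 + 64 * m 3) +
    Finsupp.single 1 (m 1 + 5 * m 2 + 21 * m 3 + 85 * m 4)

lemma wt_zero (m : Fin 5 →₀ ℕ) : wt m 0 = 85 * m 0 + 84 * m 1 + 80 * m 2 + 64 * m 3 := by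
  simp [wt]

lemma wt_one (m : Fin 5 →₀ ℕ) : wt m 1 = m 1 + 5 * m 2 + 21 * m 3 + 85 * m 4 := by
  simp [wt]

lemma wt_eq_iff (m n : Fin 5 →₀ ℕ) : wt m = wt n ↔
    (85 * m 0 + 84 * m 1 + 80 * m 2 + 64 * m 3 = 85 * n 0 + 84 * n 1 + 80 * n 2 + 64 * n 3 ∧
      m 1 + 5 * m 2 + 21 * m 3 + 85 * m 4 = n 1 + 5 * n 2 + 21 * n 3 + 85 * n 4) := by
  constructor
  · intro h
    refine ⟨?_, ?_⟩
    · rw [← wt_zero, ← wt_zero, h]
    · rw [← wt_one, ← wt_one, h]
  · rintro ⟨h0, h1⟩
    ext i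
    fin_cases i
    · simpa [wt_zero] using h0
    · simpa [wt_one] using h1

lemma paramMap_monomial (m : Fin 5 →₀ ℕ) (c : K) :
    paramMap K (monomial m c) = monomial (wt m) c := by
  rw [paramMap, aeval_monomial, Finsupp.prod_fintype _ _ (by intro i; simp)]
  simp only [Fin.prod_univ_five, expo, wt, algebraMap_eq]
  rw [monomial_eq, Finsupp.prod_fintype _ _ (by intro i; simp)]
  simp only [Fin.prod_univ_two]
  simp
  left
  ring

/-- standard monomials -/
def Std (m : Fin 5 →₀ ℕ) : Prop :=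
  m 1 ≤ 4 ∧ m 2 ≤ 4 ∧ m 3 ≤ 4 ∧ (4 ≤ m 2 → m 1 = 0) ∧ (4 ≤ m 3 → m 1 = 0 ∧ m 2 = 0)

lemma std_bound {a b c : ℕ} (h1 : a ≤ 4) (h2 : b ≤ 4) (h3 : c ≤ 4) (h4 : 4 ≤ b → a = 0)
    (h5 : 4 ≤ c → a = 0 ∧ b = 0) :
    a + 5 * b + 21 * c ≤ 84 ∧ (a + 5 * b + 21 * c) / 21 = c ∧
      ((a + 5 * b + 21 * c) % 21) / 5 = b ∧ ((a + 5 * b + 21 * c) % 21) % 5 = a := by
  by_cases hc : 4 ≤ c
  · obtain ⟨rfl, rfl⟩ := h5 hc
    refine ⟨by omega, by omega, by omega, by omega⟩
  · by_cases hb : 4 ≤ b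
    · have := h4 hb
      subst this
      refine ⟨by omega, by omega, by omega, by omega⟩
    · have hab : a + 5 * b < 20 := by omega
      have e : (a + 5 * b + 21 * c) % 21 = a + 5 * b := by omega
      rw [e]
      refine ⟨by omega, by omega, by omega, by omega⟩

lemma wt_injOn : Set.InjOn wt {m | Std m} := by
  intro m hm n hn h
  rw [wt_eq_iff] at h
  obtain ⟨a1, a2, a3, a4, a5⟩ := hm
  obtain ⟨b1, b2, b3, b4, b5⟩ := hn
  obtain ⟨h0, h1⟩ := h
  obtain ⟨m1, m2, m3, m4⟩ := std_bound a1 a2 a3 a4 a5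
  obtain ⟨n1, n2, n3, n4⟩ := std_bound b1 b2 b3 b4 b5
  have e4 : m 4 = n 4 := by omega
  have er : m 1 + 5 * m 2 + 21 * m 3 = n 1 + 5 * n 2 + 21 * n 3 := by omega
  rw [er] at m2 m3 m4
  have e3 : m 3 = n 3 := m2.symm.trans n2
  have e2 : m 2 = n 2 := m3.symm.trans n3
  have e1 : m 1 = n 1 := m4.symm.trans n4
  have e0 : m 0 = n 0 := by omega
  ext i
  fin_cases i <;> assumption

variable {K}

lemma mem_curveIdeal {f : P4 K} : f ∈ curveIdeal K ↔ paramMap K f = 0 := RingHom.mem_ker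

lemma paramMap_eq_sum (f : P4 K) :
    paramMap K f = ∑ m ∈ f.support, monomial (wt m) (coeff m f) := by
  conv_lhs => rw [f.as_sum]
  rw [map_sum]
  exact Finset.sum_congr rfl fun m _ => paramMap_monomial K m _

lemma eq_zero_of_injOn {f : P4 K} (hf : f ∈ curveIdeal K) {N : Set (Fin 5 →₀ ℕ)}
    (hN : Set.InjOn wt N) (hsupp : ∀ m ∈ f.support, m ∈ N) : f = 0 := by
  by_contra hne
  obtain ⟨m, hm⟩ := (support_nonempty).2 hne
  have h0 : coeff (wt m) (paramMap K f) = 0 := by
    rw [mem_curveIdeal.1 hf]; simp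
  rw [paramMap_eq_sum, coeff_sum, Finset.sum_eq_single m] at h0
  · rw [coeff_monomial, if_pos rfl] at h0
    exact (mem_support_iff.1 hm) h0
  · intro n hn hnm
    rw [coeff_monomial, if_neg]
    intro hw
    exact hnm (hN (hsupp n hn) (hsupp m hm) hw)
  · intro h; exact absurd hm h

lemma eq_zero_of_std {f : P4 K} (hf : f ∈ curveIdeal K) (hsupp : ∀ m ∈ f.support, Std m) :
    f = 0 := eq_zero_of_injOn hf wt_injOn hsupp

lemma degree_five (m : Fin 5 →₀ ℕ) : m.degree = m 0 + m 1 + m 2 + m 3 + m 4 := by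
  rw [Finsupp.degree_eq_sum, Fin.sum_univ_five]

/-- no forms of degree four in the ideal -/
lemma eq_zero_of_degree_four {f : P4 K} (hf : f ∈ curveIdeal K) (h4 : f.IsHomogeneous 4) :
    f = 0 := by
  apply eq_zero_of_std hf
  intro m hm
  have hd : m.degree = 4 := by
    by_contra h
    exact (mem_support_iff.1 hm) (h4.coeff_eq_zero h)
  rw [degree_five] at hd
  refine ⟨by omega, by omega, by omega, by omega, by omega⟩

lemma isPrime_curveIdeal : (curveIdeal K).IsPrime := RingHom.ker_isPrime _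

/-- the ideal is homogeneous -/
lemma curveIdeal_component {f : P4 K} (hf : f ∈ curveIdeal K) (d : ℕ) :
    homogeneousComponent d f ∈ curveIdeal K := by
  rw [mem_curveIdeal]
  have hX : ∀ i : Fin 5, ((X 0 ^ (85 - expo i) * X 1 ^ expo i : MvPolynomial (Fin 2) K)).IsHomogeneous 85 := by
    intro i
    have h1 : ((X 0 ^ (85 - expo i) : MvPolynomial (Fin 2) K)).IsHomogeneous (85 - expo i) :=
      isHomogeneous_X_pow _ _
    have h2 : ((X 1 ^ (expo i) : MvPolynomial (Fin 2) K)).IsHomogeneous (expo i) :=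
      isHomogeneous_X_pow _ _
    have h3 := h1.mul h2
    have h4 : 85 - expo i + expo i = 85 := by
      fin_cases i <;> simp [expo]
    rwa [h4] at h3
  have hcomp : ∀ e, (paramMap K (homogeneousComponent e f)).IsHomogeneous (85 * e) := by
    intro e
    exact (homogeneousComponent_isHomogeneous e f).aeval _ hX
  have hsum : paramMap K f = ∑ e ∈ Finset.range (f.totalDegree + 1),
      paramMap K (homogeneousComponent e f) := by
    rw [← map_sum, sum_homogeneousComponent]
  by_cases hd : d ∈ Finset.range (f.totalDegree + 1)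
  · have h0 : homogeneousComponent (85 * d) (paramMap K f) = 0 := by
      rw [mem_curveIdeal.1 hf]; simp
    rw [hsum, map_sum, Finset.sum_eq_single d] at h0
    · rwa [homogeneousComponent_eq_self (hcomp d)] at h0
    · intro e _ hed
      rw [homogeneousComponent_of_mem (hcomp e), if_neg]
      omega
    · intro h; exact absurd hd h
  · have : homogeneousComponent d f = 0 := by
      apply homogeneousComponent_eq_zero
      simpa using hd
    rw [this]; simp

lemma isHomogeneous_curveIdeal :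
    (curveIdeal K).IsHomogeneous (homogeneousSubmodule (Fin 5) K) := by
  intro i f hf
  have := curveIdeal_component hf i
  have h2 : (DirectSum.decompose (homogeneousSubmodule (Fin 5) K) f i : P4 K)
      = homogeneousComponent i f := decomposition.decompose'_apply f i
  rw [h2]
  exact this

end Pool.Agent.MP_71c7f5_ag
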